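import Pool.Agent.SS.JInt

/-!
# A one-parameter family of triple integrals through `ζ(3)` with at most one algebraic member

`J(r) = ∫∫∫ e^{r x y z} / (1 - x y z) dx dy dz` over the unit cube; `J(0) = ζ(3)`.
For every rational `r₀`, either `J(r₀)` is transcendental or `e` and all the numbers `J(r)`,
`r` rational and different from `r₀`, are algebraically independent over `ℚ`.
-/

namespace Pool.Agent.Results.MP_48b3e2_nt.TripleIntegralFamily

/-- The integral of `e^{r x y z} / (1 - x y z)` over the unit cube. -/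
noncomputable def J (r : ℝ) : ℝ :=
  ∫ x in (0 : ℝ)..1, ∫ y in (0 : ℝ)..1, ∫ z in (0 : ℝ)..1,
    Real.exp (r * (x * y * z)) / (1 - x * y * z)

theorem J_eq (r : ℚ) : J r = Pool.Agent.SS.Jz (∑' n : ℕ, (1 : ℝ) / ((n : ℝ) + 1) ^ 3) r :=
  Pool.Agent.SS.Jint_eq r

/-- `J(0) = ζ(3)`, and for every rational `r₀` either `J(r₀)` is transcendental or `e` together with
all `J(r)`, `r ∈ ℚ`, `r ≠ r₀`, is algebraically independent over `ℚ`. -/
theorem result :
    J 0 = ∑' n : ℕ, (1 : ℝ) / ((n : ℝ) + 1) ^ 3 ∧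
    ∀ r₀ : ℚ, Transcendental ℚ (J r₀) ∨
      AlgebraicIndependent ℚ
        (fun o : Option {r : ℚ // r ≠ r₀} => o.elim (Real.exp 1) fun r => J r) := by
  constructor
  · have h := J_eq 0
    rw [Pool.Agent.SS.Jz_zero] at h
    simpa using h
  · intro r₀
    have h := Pool.Agent.SS.Jz_dichotomy (∑' n : ℕ, (1 : ℝ) / ((n : ℝ) + 1) ^ 3) r₀
    rw [← J_eq r₀] at h
    rcases h with h | h
    · exact Or.inl h
    · right
      convert h using 1
      funext o
      rcases o with _ | r
      · rfl
      · exact J_eq r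

end Pool.Agent.Results.MP_48b3e2_nt.TripleIntegralFamily
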